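import Pool.Agent.MGP.Stmts

/-!
Squad MGP (MP_5f6ee5_nt), row CTR: the centre relation.
-/

set_option autoImplicit false

namespace Pool.Agent.MGP.H46

theorem ctr : CtrStmt := by
  intro G _ f N κ hf hflat hE hN b hb hlt
  have hbN : b < N := by
    by_contra h
    rw [not_lt] at h
    nlinarith
  obtain ⟨d, rfl⟩ : ∃ d, N = b + d := ⟨N - b, by omega⟩
  have hd : b + d - b = d := by omega
  have h1 : Odd d := by
    obtain ⟨M, hM⟩ := hE
    obtain ⟨c, hc⟩ := hb
    exact ⟨M - c - 1, by omega⟩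
  have h2 : Odd (b + d + b) := by
    obtain ⟨M, hM⟩ := hE
    obtain ⟨c, hc⟩ := hb
    exact ⟨M + c, by omega⟩
  rw [hd, ← hf _ _ h1 h2]
  apply hflat _ (h1.mul h2)
  · obtain ⟨e, he⟩ : ∃ e, b + d = e + 1 := ⟨b + d - 1, by omega⟩
    have h3 : b + d - 1 = e := by omega
    rw [h3]
    have h4 : d * (b + d + b) + b ^ 2 = (b + d) ^ 2 := by ring
    rw [he] at h4 hlt
    have h5 : (e + 1) ^ 2 = e ^ 2 + 2 * (e + 1) - 1 := by
      have : (e + 1) ^ 2 = e ^ 2 + 2 * e + 1 := by ring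
      omega
    have h6 : b + d + b = e + 1 + b := by omega
    rw [h6]
    omega
  · have h4 : d * (b + d + b) + b ^ 2 = (b + d) ^ 2 := by ring
    have h5 : (b + d + 1) ^ 2 = (b + d) ^ 2 + 2 * (b + d) + 1 := by ring
    omega

end Pool.Agent.MGP.H46
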